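import Pool.Agent.D0H11.GY.Stm

/-! Project GY, module S1: one value, upper bound (adaptation of the second part of `t_SU` of helper10,
`Pool.Agent.D0H10.GM`). -/

set_option autoImplicit false

namespace Pool.Agent.D0H70.GY

open Finset MeasureTheory Filter Pool.Agent.D0H11.GM Pool.Agent.D0H11.GY

/-- The assertion of `S_BTM` for the constant `C`. -/
def BT (C : ℝ) : Prop := ∀ y₁ y₂ : ℝ, 0 ≤ y₁ → y₁ ≤ y₂ →
  volume {y : ℝ | y ∈ Set.Icc y₁ y₂ ∧ (⌊y⌋₊ + 1).Prime} ≤
    ENNReal.ofReal (C * (y₂ - y₁ + 1) / Real.log (y₂ - y₁ + 2))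

/-- Fubini and the substitution `L = α A + β B`. -/
theorem fub (c : ℝ × ℝ) (r : ℝ) (hS : Sq c r) (A B : ℝ) (hA : 0 < A) (hB : 0 ≤ B) (P : Set ℝ)
    (hP : MeasurableSet P) (K : ENNReal) (hK : ∀ B₁ : ℝ, 0 < B₁ →
      volume {L : ℝ | L ∈ Set.Icc B₁ (B₁ + 2 * r * A) ∧ L ∈ P} ≤ K) :
    volume {a : ℝ × ℝ | a ∈ Metric.closedBall c r ∧ a.1 * A + a.2 * B ∈ P} ≤
      ENNReal.ofReal (A⁻¹) * K * ENNReal.ofReal (2 * r) := by
  obtain ⟨hr, hc1, hc2⟩ := hS
  have hmeas : MeasurableSet {a : ℝ × ℝ | a ∈ Metric.closedBall c r ∧ a.1 * A + a.2 * B ∈ P} := by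
    refine MeasurableSet.inter Metric.isClosed_closedBall.measurableSet ?_
    have hf : Measurable fun a : ℝ × ℝ => a.1 * A + a.2 * B := by fun_prop
    exact hf hP
  rw [Measure.volume_eq_prod, Measure.prod_apply_symm hmeas]
  have hslice : ∀ β : ℝ, volume ((fun x : ℝ => (x, β)) ⁻¹' {a : ℝ × ℝ |
      a ∈ Metric.closedBall c r ∧ a.1 * A + a.2 * B ∈ P}) ≤
      (Set.Icc (c.2 - r) (c.2 + r)).indicator
        (fun _ => ENNReal.ofReal (A⁻¹) * K) β := by
    intro β
    by_cases hβ : β ∈ Set.Icc (c.2 - r) (c.2 + r)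
    · rw [Set.indicator_of_mem hβ]
      set B₁ : ℝ := (c.1 - r) * A + β * B with hB₁
      have hB₁0 : 0 < B₁ := by
        have h1 : 0 < (c.1 - r) * A := mul_pos (by linarith) hA
        have h2 : 0 ≤ β * B := mul_nonneg (by linarith [hβ.1]) hB
        linarith
      have hsub : ((fun x : ℝ => (x, β)) ⁻¹' {a : ℝ × ℝ |
          a ∈ Metric.closedBall c r ∧ a.1 * A + a.2 * B ∈ P}) ⊆
          (fun x : ℝ => x * A) ⁻¹' ((fun x : ℝ => x + β * B) ⁻¹'
            {L : ℝ | L ∈ Set.Icc B₁ (B₁ + 2 * r * A) ∧ L ∈ P}) := by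
        rintro x ⟨hx, hxA⟩
        rw [Metric.mem_closedBall, Prod.dist_eq, max_le_iff, Real.dist_eq, abs_le] at hx
        have hx1 : c.1 - r ≤ x := by
          have := hx.1.1
          dsimp only at this
          linarith
        have hx2 : x ≤ c.1 + r := by
          have := hx.1.2
          dsimp only at this
          linarith
        refine ⟨⟨?_, ?_⟩, hxA⟩
        · have := mul_le_mul_of_nonneg_right hx1 hA.le
          change B₁ ≤ x * A + β * B
          linarith
        · have := mul_le_mul_of_nonneg_right hx2 hA.le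
          change x * A + β * B ≤ B₁ + 2 * r * A
          rw [hB₁]
          nlinarith
      refine (measure_mono hsub).trans ?_
      rw [Real.volume_preimage_mul_right hA.ne', abs_of_pos (inv_pos.2 hA),
        measure_preimage_add_right]
      exact mul_le_mul_right (hK B₁ hB₁0) _
    · rw [Set.indicator_of_notMem hβ]
      have hempty : ((fun x : ℝ => (x, β)) ⁻¹' {a : ℝ × ℝ |
          a ∈ Metric.closedBall c r ∧ a.1 * A + a.2 * B ∈ P}) = ∅ := by
        rw [Set.eq_empty_iff_forall_notMem]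
        rintro x ⟨hx, -⟩
        apply hβ
        rw [Metric.mem_closedBall, Prod.dist_eq, max_le_iff] at hx
        have := hx.2
        rw [Real.dist_eq, abs_le] at this
        dsimp only at this
        exact ⟨by linarith [this.1], by linarith [this.2]⟩
      rw [hempty, measure_empty]
  refine (lintegral_mono hslice).trans ?_
  rw [lintegral_indicator measurableSet_Icc, setLIntegral_const, Real.volume_Icc]
  apply le_of_eq
  congr 2
  ring

theorem t_S1 (hBT : S_BTM) : S_S1 := by
  obtain ⟨C, hC, hB⟩ := hBT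
  have hl2 : 0 < Real.log 2 := Real.log_pos one_lt_two
  refine ⟨12 * C / Real.log 2, by positivity, ?_⟩
  intro c r hS
  obtain ⟨hr, hc1, hc2⟩ := id hS
  -- large `M`
  have hM1 : ∀ᶠ M : ℕ in atTop, 1 ≤ r * 2 ^ M := by
    have h1 : Tendsto (fun M : ℕ => r * (2 : ℝ) ^ M) atTop atTop := by
      apply Tendsto.const_mul_atTop hr
      exact tendsto_pow_atTop_atTop_of_one_lt one_lt_two
    exact h1.eventually_ge_atTop 1
  have hM2 : ∀ᶠ M : ℕ in atTop, -Real.log (2 * r) ≤ M * (Real.log 2 / 2) := by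
    have h1 : Tendsto (fun M : ℕ => (M : ℝ) * (Real.log 2 / 2)) atTop atTop :=
      Tendsto.atTop_mul_const (by linarith) tendsto_natCast_atTop_atTop
    exact h1.eventually_ge_atTop _
  filter_upwards [hM1, hM2, eventually_ge_atTop 1] with M h1 h2 h3 A B hA hB'
  have hM0 : (0 : ℝ) < M := by exact_mod_cast h3
  have h2M : (0 : ℝ) < 2 ^ M := by positivity
  have hA0 : 0 < A := lt_of_lt_of_le h2M hA.1
  have hB0 : 0 ≤ B := (lt_of_lt_of_le h2M hB'.1).le
  have hrA : 1 ≤ r * A := h1.trans (mul_le_mul_of_nonneg_left hA.1 hr.le)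
  have hlog : (M : ℝ) * (Real.log 2 / 2) ≤ Real.log (2 * r * A) := by
    rw [Real.log_mul (by positivity) (by positivity)]
    have h4 : (M : ℝ) * Real.log 2 ≤ Real.log A := by
      rw [← Real.log_pow]
      exact Real.log_le_log h2M hA.1
    linarith
  have hMl : 0 < (M : ℝ) * (Real.log 2 / 2) := mul_pos hM0 (by linarith)
  have key1 : C * (2 * r * A + 1) / Real.log (2 * r * A + 2) ≤
      3 * C * (r * A) / (M * (Real.log 2 / 2)) := by
    apply div_le_div₀ (by positivity)
    · nlinarith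
    · exact hMl
    · refine hlog.trans (Real.log_le_log (by positivity) (by linarith))
  have hfl : MeasurableSet {L : ℝ | (⌊L⌋₊ + 1).Prime} := by
    have hf : Measurable fun L : ℝ => ⌊L⌋₊ + 1 := (Nat.measurable_floor).add_const 1
    exact hf (MeasurableSet.of_discrete (s := {n : ℕ | n.Prime}))
  have hT := fub c r hS A B hA0 hB0 {L : ℝ | (⌊L⌋₊ + 1).Prime} hfl
    (ENNReal.ofReal (3 * C * (r * A) / (M * (Real.log 2 / 2)))) (by
      intro B₁ hB₁
      have h5 := hB B₁ (B₁ + 2 * r * A) hB₁.le (by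
        have : 0 < 2 * r * A := by positivity
        linarith)
      refine h5.trans ?_
      apply ENNReal.ofReal_le_ofReal
      rw [add_sub_cancel_left]
      exact key1)
  refine (measure_mono (fun a ha => ha)).trans (hT.trans ?_)
  rw [← ENNReal.ofReal_mul (by positivity), ← ENNReal.ofReal_mul (by positivity)]
  apply ENNReal.ofReal_le_ofReal
  have e : A⁻¹ * (3 * C * (r * A) / (M * (Real.log 2 / 2))) * (2 * r) =
      (12 * C / Real.log 2) * r ^ 2 / M := by
    field_simp
    ring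
  rw [e]

end Pool.Agent.D0H70.GY
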